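import Mathlib

/-!
# Verified Gaussian elimination modulo a prime on lists of natural numbers
-/

set_option autoImplicit false

namespace Pool.Agent.Y435.TB

/-- scalar product of a row with a vector -/
def dot {R : Type} [CommRing R] : List ℕ → List R → R
  | a :: r, x :: xs => (a : R) * x + dot r xs
  | _, _ => 0

/-- `a * s - b * r` without the first entries `a`, `b` -/
def combine (p : ℕ) : List ℕ → List ℕ → List ℕ
  | a :: r, b :: s => List.zipWith (fun x y => (a * y + (p - b) * x) % p) r s
  | _, _ => []

/-- first row whose first entry is not zero, and the other rows -/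
def pick : List (List ℕ) → Option (List ℕ × List (List ℕ))
  | [] => none
  | r :: rs => if r.headD 0 = 0 then
      (match pick rs with
      | none => none
      | some q => some (q.1, r :: q.2)) else some (r, rs)

/-- all rows have length `m` and entries below `p` -/
def good (p m : ℕ) (rs : List (List ℕ)) : Bool :=
  rs.all fun r => r.length == m && r.all fun a => decide (a < p)

/-- Gaussian elimination: true if the rows of length `m` have rank `m` -/
def elim (p : ℕ) : ℕ → List (List ℕ) → Bool
  | 0, _ => true
  | m + 1, rs => match pick rs with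
    | none => false
    | some q => elim p m (q.2.map (combine p q.1))

theorem pick_mem : ∀ (rs : List (List ℕ)) (q : List ℕ × List (List ℕ)), pick rs = some q →
    q.1 ∈ rs ∧ q.1.headD 0 ≠ 0 ∧ ∀ s ∈ q.2, s ∈ rs := by
  intro rs
  induction rs with
  | nil => intro q h; simp [pick] at h
  | cons r rs ih =>
    intro q h
    rw [pick] at h
    by_cases hr : r.headD 0 = 0
    · rw [if_pos hr] at h
      rcases hp : pick rs with _ | q'
      · rw [hp] at h; simp at h
      · rw [hp] at h
        simp only [Option.some.injEq] at h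
        subst h
        obtain ⟨h1, h2, h3⟩ := ih q' hp
        refine ⟨List.mem_cons_of_mem _ h1, h2, ?_⟩
        intro s hs
        rcases List.mem_cons.1 hs with rfl | hs
        · exact List.mem_cons_self
        · exact List.mem_cons_of_mem _ (h3 s hs)
    · rw [if_neg hr] at h
      simp only [Option.some.injEq] at h
      subst h
      exact ⟨List.mem_cons_self, hr, fun s hs => List.mem_cons_of_mem _ hs⟩

theorem dot_zip (p : ℕ) (a b : ℕ) (hb : b ≤ p) : ∀ (r s : List ℕ) (x : List (ZMod p)),
    r.length = x.length → s.length = x.length →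
    dot (List.zipWith (fun u v => (a * v + (p - b) * u) % p) r s) x =
      (a : ZMod p) * dot s x - (b : ZMod p) * dot r x := by
  intro r
  induction r with
  | nil =>
    intro s x hr hs
    have hx : x = [] := List.length_eq_zero_iff.1 hr.symm
    subst hx
    have : s = [] := List.length_eq_zero_iff.1 hs
    subst this
    simp [dot]
  | cons u r ih =>
    intro s x hr hs
    rcases x with _ | ⟨y, x⟩
    · simp at hr
    rcases s with _ | ⟨v, s⟩
    · simp at hs
    simp only [List.length_cons, Nat.add_right_cancel_iff] at hr hs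
    rw [List.zipWith_cons_cons, dot, dot, dot, ih s x hr hs]
    have h1 : (((a * v + (p - b) * u) % p : ℕ) : ZMod p) = a * v - b * u := by
      rw [ZMod.natCast_mod]
      push_cast [Nat.cast_sub hb]
      simp
      ring
    rw [h1]
    ring

theorem combine_good {p m : ℕ} (hp : 0 < p) {r s : List ℕ} (hr : r.length = m + 1)
    (hs : s.length = m + 1) : (combine p r s).length = m ∧ ∀ a ∈ combine p r s, a < p := by
  rcases r with _ | ⟨a, r⟩
  · simp at hr
  rcases s with _ | ⟨b, s⟩
  · simp at hs
  simp only [List.length_cons, Nat.add_right_cancel_iff] at hr hs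
  refine ⟨by simp [combine, hr, hs], ?_⟩
  intro c hc
  simp only [combine] at hc
  obtain ⟨i, hi, rfl⟩ := List.mem_iff_getElem.1 hc
  rw [List.getElem_zipWith]
  exact Nat.mod_lt _ hp

theorem elim_sound (p : ℕ) [Fact p.Prime] : ∀ (m : ℕ) (rs : List (List ℕ)),
    (∀ r ∈ rs, r.length = m ∧ ∀ a ∈ r, a < p) → elim p m rs = true →
    ∀ x : List (ZMod p), x.length = m → (∀ r ∈ rs, dot r x = 0) → ∀ y ∈ x, y = 0 := by
  intro m
  induction m with
  | zero =>
    intro rs _ _ x hx _ y hy
    have : x = [] := List.length_eq_zero_iff.1 hx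
    subst this
    simp at hy
  | succ m ih =>
    intro rs hg he x hx h0
    rw [elim] at he
    rcases hq : pick rs with _ | q
    · rw [hq] at he; simp at he
    rw [hq] at he
    simp only at he
    obtain ⟨h1, h2, h3⟩ := pick_mem rs q hq
    have hp : 0 < p := (Fact.out : p.Prime).pos
    obtain ⟨hl, hlt⟩ := hg q.1 h1
    rcases hr : q.1 with _ | ⟨a, r⟩
    · rw [hr] at hl; simp at hl
    rcases x with _ | ⟨x0, x⟩
    · simp at hx
    simp only [List.length_cons, Nat.add_right_cancel_iff] at hx
    rw [hr] at hl hlt h2
    simp only [List.length_cons, Nat.add_right_cancel_iff] at hl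
    have ha : a ≠ 0 := by simpa using h2
    have ha' : (a : ZMod p) ≠ 0 := by
      intro h
      rw [ZMod.natCast_eq_zero_iff] at h
      have := Nat.le_of_dvd (Nat.pos_of_ne_zero ha) h
      have := hlt a List.mem_cons_self
      omega
    have hrow : (a : ZMod p) * x0 + dot r x = 0 := by
      have := h0 q.1 h1
      rw [hr, dot] at this
      exact this
    have hx' : ∀ y ∈ x, y = 0 := by
      apply ih (q.2.map (combine p q.1)) _ he x hx
      · intro s hs
        obtain ⟨s', hs', rfl⟩ := List.mem_map.1 hs
        obtain ⟨hl', _⟩ := hg s' (h3 s' hs')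
        rcases s' with _ | ⟨b, s'⟩
        · simp at hl'
        simp only [List.length_cons, Nat.add_right_cancel_iff] at hl'
        have hb : b < p := (hg _ (h3 _ hs')).2 b List.mem_cons_self
        rw [hr, combine, dot_zip p a b hb.le r s' x (by rw [hl, hx]) (by rw [hl', hx])]
        have h4 : (b : ZMod p) * x0 + dot s' x = 0 := by
          have := h0 _ (h3 _ hs')
          rw [dot] at this
          exact this
        linear_combination (a : ZMod p) * h4 - (b : ZMod p) * hrow
      · intro s hs
        obtain ⟨s', hs', rfl⟩ := List.mem_map.1 hs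
        exact combine_good hp (by rw [hr]; simp [hl]) (hg s' (h3 s' hs')).1
    have hd : dot r x = 0 := by
      have key : ∀ (r : List ℕ) (x : List (ZMod p)), (∀ y ∈ x, y = 0) → dot r x = 0 := by
        intro r
        induction r with
        | nil => intro x _; simp [dot]
        | cons a r ih' =>
          intro x hx
          rcases x with _ | ⟨y, x⟩
          · simp [dot]
          · rw [dot, hx y List.mem_cons_self, ih' x (fun z hz => hx z (List.mem_cons_of_mem _ hz))]
            ring
      exact key r x hx'
    rw [hd, add_zero] at hrow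
    have hx0 : x0 = 0 := (mul_eq_zero.1 hrow).resolve_left ha'
    intro y hy
    rcases List.mem_cons.1 hy with rfl | hy
    · exact hx0
    · exact hx' y hy

theorem good_iff {p m : ℕ} {rs : List (List ℕ)} (h : good p m rs = true) :
    ∀ r ∈ rs, r.length = m ∧ ∀ a ∈ r, a < p := by
  intro r hr
  have h1 := List.all_eq_true.1 h r hr
  rw [Bool.and_eq_true] at h1
  refine ⟨by simpa using h1.1, fun a ha => ?_⟩
  have h2 := List.all_eq_true.1 h1.2 a ha
  simpa using h2

theorem dot_ofFn {R : Type} [CommRing R] : ∀ (n : ℕ) (a : Fin n → ℕ) (b : Fin n → R),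
    dot (List.ofFn a) (List.ofFn b) = ∑ j, (a j : R) * b j := by
  intro n
  induction n with
  | zero => intro a b; simp [dot]
  | succ n ih =>
    intro a b
    rw [List.ofFn_succ, List.ofFn_succ, dot, ih, Fin.sum_univ_succ]

/-- residues of the rows of an integer matrix -/
def resid (p : ℕ) {n : ℕ} (M : Fin n → Fin n → ℤ) : List (List ℕ) :=
  List.ofFn fun i => List.ofFn fun j => (M i j % (p : ℤ)).toNat

/-- An integer matrix that passes the elimination is injective over the rational numbers. -/
theorem injective_of_elim (p : ℕ) [Fact p.Prime] {n : ℕ} (M : Fin n → Fin n → ℤ)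
    (h : elim p n (resid p M) = true) (x : Fin n → ℚ)
    (hx : ∀ i, ∑ j, (M i j : ℚ) * x j = 0) : x = 0 := by
  classical
  have hp : 0 < p := (Fact.out : p.Prime).pos
  have hp' : (0 : ℤ) < p := by exact_mod_cast hp
  let A : Matrix (Fin n) (Fin n) ℤ := Matrix.of M
  have hcast : ∀ i j, (((M i j % (p : ℤ)).toNat : ℕ) : ZMod p) = ((M i j : ℤ) : ZMod p) := by
    intro i j
    have h1 : (((M i j % (p : ℤ)).toNat : ℤ)) = M i j % (p : ℤ) :=
      Int.toNat_of_nonneg (Int.emod_nonneg _ hp'.ne')
    have h2 : (((M i j % (p : ℤ)).toNat : ℕ) : ZMod p) = (((M i j % (p : ℤ)).toNat : ℤ) : ZMod p) := by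
      push_cast
      rfl
    rw [h2, h1]
    exact ZMod.intCast_mod _ _
  have hdet : (A.map (Int.castRingHom (ZMod p))).det ≠ 0 := by
    intro hd
    obtain ⟨v, hv0, hv⟩ := Matrix.exists_mulVec_eq_zero_iff.2 hd
    apply hv0
    funext j
    refine elim_sound p n (resid p M) ?_ h (List.ofFn v) (by simp) ?_ (v j) ?_
    · intro r hr
      obtain ⟨i, rfl⟩ := List.mem_ofFn.1 hr
      refine ⟨by simp, ?_⟩
      intro a ha
      obtain ⟨j, rfl⟩ := List.mem_ofFn.1 ha
      have h1 := Int.emod_lt_of_pos (M i j) hp'
      have h2 := Int.emod_nonneg (M i j) hp'.ne'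
      omega
    · intro r hr
      obtain ⟨i, rfl⟩ := List.mem_ofFn.1 hr
      rw [dot_ofFn]
      have h1 := congrFun hv i
      simp only [Matrix.mulVec, dotProduct, Matrix.map_apply, Pi.zero_apply] at h1
      rw [← h1]
      refine Finset.sum_congr rfl fun j _ => ?_
      rw [hcast]
      rfl
    · exact List.mem_ofFn.2 ⟨j, rfl⟩
  have hdetZ : A.det ≠ 0 := by
    intro hd
    apply hdet
    have := (Int.castRingHom (ZMod p)).map_det A
    rw [hd, map_zero] at this
    exact this.symm
  have hdetQ : (A.map (Int.castRingHom ℚ)).det ≠ 0 := by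
    have := (Int.castRingHom ℚ).map_det A
    intro hd
    apply hdetZ
    have h3 : (Int.castRingHom ℚ) A.det = 0 := this.trans hd
    simpa using h3
  apply Matrix.eq_zero_of_mulVec_eq_zero hdetQ
  funext i
  simp only [Matrix.mulVec, dotProduct, Matrix.map_apply, Pi.zero_apply]
  rw [← hx i]
  rfl

end Pool.Agent.Y435.TB
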