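import Pool.Agent.Y435.TB.Elim

/-!
# Four bodies: the numerical matrices
-/

set_option autoImplicit false

namespace Pool.Agent.Y435.TB

open Finset

/-- Pluecker coordinates -/
def plu (X Y : Fin 4 → ℤ) : Fin 6 → ℤ :=
  ![X 0 * Y 1 - X 1 * Y 0, X 0 * Y 2 - X 2 * Y 0, X 0 * Y 3 - X 3 * Y 0,
    X 1 * Y 2 - X 2 * Y 1, X 1 * Y 3 - X 3 * Y 1, X 2 * Y 3 - X 3 * Y 2]

/-- the points -/
def PZ : Fin 4 → Fin 3 → Fin 4 → ℤ :=
  ![![![1, 0, 0, 0], ![0, 1, 0, 0], ![0, 0, 1, 0]],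
    ![![2, 3, -1, 1], ![-3, 2, -1, 1], ![2, 2, 1, 1]],
    ![![0, 1, 3, 1], ![2, -2, -1, 1], ![-1, 1, 0, 1]],
    ![![3, 1, 0, 1], ![1, 3, -3, 1], ![0, -2, 2, 1]]]

/-- first body of a line -/
def sA : Fin 6 → Fin 4 := ![0, 0, 0, 1, 2, 3]

/-- second body of a line -/
def sB : Fin 6 → Fin 4 := ![1, 2, 3, 2, 3, 1]

/-- the index of the second point of a line -/
def sI (σ τ ρ : Fin 3 → Fin 3) (t : Fin 6) (k : Fin 3) : Fin 3 :=
  if t = 3 then σ k else if t = 4 then τ k else if t = 5 then ρ k else k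

/-- the lines -/
def line (σ τ ρ : Fin 3 → Fin 3) (t : Fin 6) (k : Fin 3) : Fin 6 → ℤ :=
  plu (PZ (sA t) k) (PZ (sB t) (sI σ τ ρ t k))

/-- the incidences -/
def coef : Fin 6 → Fin 3 → ℤ :=
  ![![1, 0, 0], ![0, 1, 0], ![0, 0, 1], ![1, -1, 0], ![0, 1, -1], ![-1, 0, 1]]

/-- the matrix -/
def Mx (σ τ ρ : Fin 3 → Fin 3) (i j : Fin 18) : ℤ :=
  let a := (finProdFinEquiv (m := 6) (n := 3)).symm i
  let b := (finProdFinEquiv (m := 3) (n := 6)).symm j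
  coef a.1 b.1 * line σ τ ρ a.1 a.2 b.2

/-- the permutations -/
def pm : Fin 6 → Fin 3 → Fin 3 :=
  ![![0, 1, 2], ![0, 2, 1], ![1, 0, 2], ![1, 2, 0], ![2, 0, 1], ![2, 1, 0]]

theorem pm_surj : ∀ σ : Fin 3 → Fin 3, Function.Injective σ → ∃ a, pm a = σ := by
  decide +kernel

end Pool.Agent.Y435.TB
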